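import Pool.Agent.K35c.DG.Step

/-! The base case: three colours. -/

set_option autoImplicit false

namespace Pool.Agent.K35c.DG

open Sum

/-- the cycle graph on `ZMod n` -/
def Cyc (n : ℕ) : SimpleGraph (ZMod n) where
  Adj i j := i ≠ j ∧ (j = i + 1 ∨ i = j + 1)
  symm := ⟨fun _ _ h => ⟨h.1.symm, h.2.symm⟩⟩
  loopless := ⟨fun _ h => h.1 rfl⟩

theorem cyc_walk {n : ℕ} : ∀ (L : ℕ) (s t : ZMod n), RW (Cyc n) L s t →
    ∃ z : ℤ, |z| ≤ L ∧ (Even z ↔ Even (L : ℤ)) ∧ t = s + (z : ZMod n) := by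
  intro L
  induction L with
  | zero =>
    intro s t h
    have h' : s = t := h
    exact ⟨0, by simp, by simp, by simp [h']⟩
  | succ L ih =>
    intro s t h
    obtain ⟨u, ⟨_, hu⟩, hw⟩ := h
    obtain ⟨z, h1, h2, h3⟩ := ih u t hw
    rcases hu with hu | hu
    · refine ⟨z + 1, ?_, ?_, ?_⟩
      · have := abs_add_le z 1
        push_cast
        simp only [abs_one] at this
        linarith
      · push_cast
        rw [Int.even_add_one, Int.even_add_one, h2]
      · rw [h3, hu]
        push_cast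
        ring
    · refine ⟨z - 1, ?_, ?_, ?_⟩
      · have := abs_sub z 1
        push_cast
        simp only [abs_one] at this
        linarith
      · push_cast
        rw [Int.even_sub_one, Int.even_add_one, h2]
      · rw [h3, hu]
        push_cast
        ring

theorem cyc_og {n g : ℕ} (h : g < n) : OG (Cyc n) g := by
  intro L s hL hw
  by_contra hle
  push Not at hle
  obtain ⟨z, h1, h2, h3⟩ := cyc_walk L s s hw
  have h4 : ((z : ℤ) : ZMod n) = 0 := by
    have : s + 0 = s + (z : ZMod n) := by rw [add_zero]; exact h3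
    exact (add_left_cancel this).symm
  rw [ZMod.intCast_zmod_eq_zero_iff_dvd] at h4
  have h5 : z = 0 := by
    apply Int.eq_zero_of_abs_lt_dvd h4
    omega
  rw [h5] at h2
  have h6 : Even (L : ℤ) := h2.1 (by simp)
  rw [Int.even_coe_nat] at h6
  exact (Nat.not_even_iff_odd.2 hL) h6

/-- vertices of the base graph: `(σ, inl b)`, `(σ, inr (inl i)) = y`, `(σ, inr (inr i)) = x` -/
abbrev BV (n : ℕ) (β : Type) : Type := Bool × (β ⊕ (ZMod n ⊕ ZMod n))

/-- the edges of the base graph, in one direction -/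
def br (n : ℕ) (β : Type) (s t : BV n β) : Prop :=
  (∃ b b', s = (false, inl b) ∧ t = (true, inl b')) ∨
  (∃ σ i, s = (σ, inr (inl i)) ∧ t = (σ, inr (inr i))) ∨
  (∃ σ i, s = (σ, inr (inr i)) ∧ t = (σ, inr (inr (i + 1))))

/-- the base graph -/
def BG (n : ℕ) (β : Type) : SimpleGraph (BV n β) where
  Adj s t := s ≠ t ∧ (br n β s t ∨ br n β t s)
  symm := ⟨fun _ _ h => ⟨h.1.symm, h.2.symm⟩⟩
  loopless := ⟨fun _ h => h.1 rfl⟩

theorem bg_og {n g : ℕ} (h : g < n) (hn : 2 ≤ n) : OG (BG n Unit) g := by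
  have : Fact (1 < n) := ⟨by omega⟩
  set F : BV n Unit → ZMod n := fun s => match s with
    | (false, inl _) => 0
    | (true, inl _) => 1
    | (_, inr (inl i)) => i + 1
    | (_, inr (inr i)) => i with hF
  have h01 : (0 : ZMod n) ≠ 1 := zero_ne_one
  have hi : ∀ i : ZMod n, i ≠ i + 1 := by
    intro i h
    have : i + 0 = i + 1 := by rw [add_zero]; exact h
    exact h01 (add_left_cancel this)
  have key : ∀ s t, br n Unit s t → (Cyc n).Adj (F s) (F t) := by
    rintro s t (⟨b, b', rfl, rfl⟩ | ⟨σ, i, rfl, rfl⟩ | ⟨σ, i, rfl, rfl⟩)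
    · exact ⟨h01, Or.inl (by show (1 : ZMod n) = 0 + 1; rw [zero_add])⟩
    · have e1 : F (σ, inr (inl i)) = i + 1 := by rcases σ <;> rfl
      have e2 : F (σ, inr (inr i)) = i := by rcases σ <;> rfl
      rw [e1, e2]
      exact ⟨(hi i).symm, Or.inr rfl⟩
    · have e1 : F (σ, inr (inr (i + 1))) = i + 1 := by rcases σ <;> rfl
      have e2 : F (σ, inr (inr i)) = i := by rcases σ <;> rfl
      rw [e1, e2]
      exact ⟨hi i, Or.inl rfl⟩
  refine OG.of_map F ?_ (cyc_og h)
  rintro s t ⟨_, h | h⟩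
  · exact key s t h
  · exact (key t s h).symm

theorem four_colours (a b c d : Fin 3) (h1 : a ≠ b) (h2 : c ≠ d) (h3 : a ≠ c) (h4 : a ≠ d)
    (h5 : b ≠ c) (h6 : b ≠ d) : False := by
  omega

theorem two_left (γ a b c : Fin 3) (ha : a ≠ γ) (hb : b ≠ γ) (hc : c ≠ γ) (hab : a ≠ b)
    (hbc : b ≠ c) : c = a := by
  omega

/-- an odd cycle has no proper colouring by two colours -/
theorem odd_cycle {m : ℕ} (hm : Odd m) (χ : ZMod m → Fin 3) (γ : Fin 3) (h1 : ∀ i, χ i ≠ γ)
    (h2 : ∀ i, χ i ≠ χ (i + 1)) : False := by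
  have h3 : ∀ i, χ (i + 2) = χ i := by
    intro i
    have h4 := h2 i
    have h5 := h2 (i + 1)
    rw [add_assoc, one_add_one_eq_two] at h5
    exact two_left γ _ _ _ (h1 i) (h1 (i + 1)) (h1 (i + 2)) h4 h5
  have h4 : ∀ k : ℕ, χ ((2 * k : ℕ) : ZMod m) = χ 0 := by
    intro k
    induction k with
    | zero => simp
    | succ k ih =>
      rw [← ih, ← h3 ((2 * k : ℕ) : ZMod m)]
      congr 1
      push_cast
      ring
  obtain ⟨k, hk⟩ := hm
  have h5 := h4 (k + 1)
  have h6 : ((2 * (k + 1) : ℕ) : ZMod m) = 0 + 1 := by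
    have : 2 * (k + 1) = m + 1 := by omega
    rw [this]
    simp
  rw [h6] at h5
  exact h2 0 h5.symm

theorem dense_base (g : ℕ) : ∃ A : ℕ, Dense g A 3 (2 * g + 3) := by
  classical
  obtain ⟨W, hW, R, p, q, hpq, hR1, hR2, hR3, hR4⟩ := gad 3 g (by omega)
  set m0 := 2 * g + 3 with hm0
  have hn0 : NeZero m0 := ⟨by omega⟩
  refine ⟨6 + 2 * Fintype.card W, BV m0 Unit ⊕ ((Bool × ZMod m0) × W), inferInstance, ?_⟩
  set a' : Bool × ZMod m0 → BV m0 Unit := fun i => (i.1, inl ()) with ha'
  set b' : Bool × ZMod m0 → BV m0 Unit := fun i => (i.1, inr (inl i.2)) with hb'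
  have hab' : ∀ i, a' i ≠ b' i := by
    intro i h
    have := (Prod.mk.inj h).2
    simp at this
  refine ⟨Sub (BG m0 Unit) a' b' R p q, sub_og hab' hpq hR3 hR4 (bg_og (by omega) (by omega)), ?_, 0, ?_⟩
  · refine ⟨inl (false, inl ()), inl (true, inl ()), sub_adj ⟨by simp, Or.inl (Or.inl ⟨(), (), rfl, rfl⟩)⟩⟩
  intro r
  set m := m0 * (2 * r + 1) with hm
  have hmpos : 0 < m := by positivity
  have hnm : NeZero m := ⟨hmpos.ne'⟩
  have hm3 : 3 ≤ m := by nlinarith
  have hmodd : Odd m := by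
    rw [hm]
    apply Odd.mul
    · rw [hm0]
      exact ⟨g + 1, by ring⟩
    · exact ⟨r, rfl⟩
  have hfact : Fact (1 < m) := ⟨by omega⟩
  have hdvd : m0 ∣ m := Dvd.intro _ rfl
  set ρ : ZMod m →+* ZMod m0 := ZMod.castHom hdvd (ZMod m0) with hρ
  set a : Bool × ZMod m → BV m (ZMod m) := fun i => (i.1, inl i.2) with ha
  set b : Bool × ZMod m → BV m (ZMod m) := fun i => (i.1, inr (inl i.2)) with hb
  have hab : ∀ i, a i ≠ b i := by
    intro i h
    have := (Prod.mk.inj h).2
    simp at this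
  set F : BV m (ZMod m) → BV m0 Unit := fun s => (s.1, Sum.map (fun _ => ()) (Sum.map ρ ρ) s.2) with hF
  have hne : ∀ i : ZMod m, i ≠ i + 1 := by
    intro i h
    have : i + 0 = i + 1 := by rw [add_zero]; exact h
    exact zero_ne_one (add_left_cancel this)
  have hfact0 : Fact (1 < m0) := ⟨by omega⟩
  have hne0 : ∀ i : ZMod m0, i ≠ i + 1 := by
    intro i h
    have : i + 0 = i + 1 := by rw [add_zero]; exact h
    exact zero_ne_one (add_left_cancel this)
  let eF : Fin m ≃ ZMod m := (ZMod.finEquiv m).toEquiv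
  refine ⟨BV m (ZMod m) ⊕ ((Bool × ZMod m) × W), inferInstance, Sub (BG m (ZMod m)) a b R p q,
    Sum.map F (Prod.map (Prod.map id ρ) id), fun i => inl (false, inl (eF i)),
    fun i => inl (true, inl (eF i)), ?_, ?_, ?_, ?_, ?_, ?_, ?_⟩
  · apply sub_map F (Prod.map id ρ) ?_ ?_ ?_ hab'
    · have key : ∀ s t, br m (ZMod m) s t → (BG m0 Unit).Adj (F s) (F t) := by
        rintro s t (⟨b, b', rfl, rfl⟩ | ⟨σ, i, rfl, rfl⟩ | ⟨σ, i, rfl, rfl⟩)
        · exact ⟨by simp [hF], Or.inl (Or.inl ⟨(), (), rfl, rfl⟩)⟩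
        · exact ⟨by simp [hF], Or.inl (Or.inr (Or.inl ⟨σ, ρ i, rfl, rfl⟩))⟩
        · refine ⟨?_, Or.inl (Or.inr (Or.inr ⟨σ, ρ i, rfl, ?_⟩))⟩
          · intro h
            have := (Prod.mk.inj h).2
            simp only [Sum.map_inr, map_add, map_one, inr.injEq] at this
            exact hne0 _ this
          · show (σ, inr (inr (ρ (i + 1)))) = (σ, inr (inr (ρ i + 1)))
            rw [map_add, map_one]
      rintro s t ⟨_, h | h⟩
      · exact key s t h
      · exact (key t s h).symm
    · intro i; rfl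
    · intro i; rfl
  · intro i j hij
    exact eF.injective (inl_injective (Prod.mk.inj (inl_injective hij)).2)
  · intro i j hij
    exact eF.injective (inl_injective (Prod.mk.inj (inl_injective hij)).2)
  · intro i j
    exact sub_adj ⟨by simp, Or.inl (Or.inl ⟨_, _, rfl, rfl⟩)⟩
  · intro φ hφ
    obtain ⟨h1, h2⟩ := sub_col hab hpq hR1 hφ
    have hmono : ∃ σ : Bool, ∀ i j : ZMod m, φ (inl (σ, inl i)) = φ (inl (σ, inl j)) := by
      by_contra hcon
      push Not at hcon
      obtain ⟨i, j, hij⟩ := hcon false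
      obtain ⟨i', j', hij'⟩ := hcon true
      have hx : ∀ i i' : ZMod m, φ (inl (false, inl i)) ≠ φ (inl (true, inl i')) := fun i i' =>
        h1 _ _ ⟨by simp, Or.inl (Or.inl ⟨i, i', rfl, rfl⟩)⟩
      exact four_colours _ _ _ _ hij hij' (hx i i') (hx i j') (hx j i') (hx j j')
    obtain ⟨σ, hσ⟩ := hmono
    apply odd_cycle hmodd (fun i => φ (inl (σ, inr (inr i)))) (φ (inl (σ, inl 0)))
    · intro i
      have h3 := h1 (σ, inr (inl i)) (σ, inr (inr i)) ⟨by simp, Or.inl (Or.inr (Or.inl ⟨σ, i, rfl, rfl⟩))⟩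
      have h4 : φ (inl (σ, inl i)) = φ (inl (σ, inr (inl i))) := h2 (σ, i)
      rw [← h4, hσ i 0] at h3
      exact h3.symm
    · intro i
      apply h1
      refine ⟨?_, Or.inl (Or.inr (Or.inr ⟨σ, i, rfl, rfl⟩))⟩
      intro h
      have := (Prod.mk.inj h).2
      simp only [inr.injEq] at this
      exact hne _ this
  · intro i0 j0
    -- the exceptional indices
    set e : Bool → ZMod m := fun σ => if σ then eF j0 else eF i0 with he
    set cc : Bool → Fin 3 := fun σ => if σ then 1 else 0 with hcc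
    set oc : Bool → Fin 3 := fun σ => if σ then 0 else 1 with hoc
    set cb : Bool → ZMod m → Fin 3 := fun σ i => if i = e σ then 2 else cc σ with hcb
    set cx : Bool → ZMod m → Fin 3 := fun σ i =>
      if (i - e σ).val = 0 then cc σ else if Odd (i - e σ).val then oc σ else 2 with hcx
    set ψ : BV m (ZMod m) → Fin 3 := fun s => match s with
      | (σ, inl i) => cb σ i
      | (σ, inr (inl i)) => cb σ i
      | (σ, inr (inr i)) => cx σ i with hψ
    have hco : ∀ σ, cc σ ≠ oc σ ∧ cc σ ≠ 2 ∧ oc σ ≠ 2 := by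
      intro σ
      rcases σ <;> simp [hcc, hoc]
    have hyx : ∀ σ i, cb σ i ≠ cx σ i := by
      intro σ i
      simp only [hcb, hcx]
      by_cases h : i = e σ
      · rw [if_pos h, h, sub_self, ZMod.val_zero, if_pos rfl]
        exact (hco σ).2.1.symm
      · rw [if_neg h]
        have h3 : (i - e σ).val ≠ 0 := by
          rw [Ne, ZMod.val_eq_zero, sub_eq_zero]
          exact h
        rw [if_neg h3]
        split_ifs
        · exact (hco σ).1
        · exact (hco σ).2.1
    have hxx : ∀ σ i, cx σ i ≠ cx σ (i + 1) := by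
      intro σ i
      simp only [hcx]
      have h3 : (i + 1 - e σ).val = ((i - e σ).val + 1) % m := by
        rw [show i + 1 - e σ = (i - e σ) + 1 by ring, ZMod.val_add, ZMod.val_one]
      have h4 : (i - e σ).val < m := ZMod.val_lt _
      rw [h3]
      by_cases h5 : (i - e σ).val = 0
      · rw [if_pos h5, h5, Nat.zero_add, Nat.mod_eq_of_lt (by omega), if_neg (by omega),
          if_pos (by decide)]
        exact (hco σ).1
      · rw [if_neg h5]
        by_cases h6 : (i - e σ).val + 1 = m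
        · rw [h6, Nat.mod_self, if_pos rfl]
          have h7 : ¬ Odd (i - e σ).val := by
            rw [Nat.not_odd_iff_even]
            rw [← h6] at hmodd
            rw [Nat.even_iff]
            rw [Nat.odd_iff] at hmodd
            omega
          rw [if_neg h7]
          exact (hco σ).2.1.symm
        · rw [Nat.mod_eq_of_lt (by omega)]
          have h8 : ¬ ((i - e σ).val + 1 = 0) := Nat.succ_ne_zero _
          by_cases h7 : Odd (i - e σ).val
          · have h9 : ¬ Odd ((i - e σ).val + 1) := by rw [Nat.odd_add_one]; exact fun h => h h7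
            rw [if_pos h7, if_neg h8, if_neg h9]
            exact (hco σ).2.2
          · have h9 : Odd ((i - e σ).val + 1) := by rw [Nat.odd_add_one]; exact h7
            rw [if_neg h7, if_neg h8, if_pos h9]
            exact (hco σ).2.2.symm
    have key : ∀ s t, br m (ZMod m) s t → ψ s = ψ t →
        (s = (false, inl (eF i0)) ∧ t = (true, inl (eF j0))) := by
      rintro s t (⟨b, b', rfl, rfl⟩ | ⟨σ, i, rfl, rfl⟩ | ⟨σ, i, rfl, rfl⟩) h
      · have h' : cb false b = cb true b' := h
        simp only [hcb, hcc, he] at h'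
        by_cases h3 : b = eF i0
        · by_cases h4 : b' = eF j0
          · exact ⟨by rw [h3], by rw [h4]⟩
          · simp [h3, h4] at h'
        · by_cases h4 : b' = eF j0
          · simp [h3, h4] at h'
          · simp [h3, h4] at h'
      · exact absurd h (hyx σ i)
      · exact absurd h (hxx σ i)
    obtain ⟨φ, _, hφ⟩ := sub_ext (E := BG m (ZMod m)) hab hpq hR1 hR2 ψ (false, inl (eF i0))
      (true, inl (eF j0)) (by
        rintro s t ⟨_, h | h⟩ heq
        · exact Or.inl (key s t h heq)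
        · exact Or.inr (And.symm (key t s h heq.symm))) (fun _ => rfl)
    exact ⟨φ, hφ⟩
  · rw [Fintype.card_sum, Fintype.card_prod, Fintype.card_prod, Fintype.card_prod, Fintype.card_sum,
      Fintype.card_sum, Fintype.card_bool, ZMod.card]
    apply le_of_eq
    ring

end Pool.Agent.K35c.DG
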