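import Pool.Agent.K35c.DG.Base

/-! From dense non-colourable graphs to dense critical graphs. -/

set_option autoImplicit false

namespace Pool.Agent.K35c.DG

theorem dense_all (g : ℕ) : ∃ A : ℕ, ∀ c : ℕ, 3 ≤ c → Dense g A c (2 * g + 3) := by
  obtain ⟨A, hA⟩ := dense_base g
  refine ⟨A, ?_⟩
  intro c hc
  induction c, hc using Nat.le_induction with
  | base => exact hA
  | succ c _ ih => exact dense_step ih

theorem critical {V : Type} [Fintype V] {G : SimpleGraph V} {g c m : ℕ} (hc : 1 ≤ c) (hm : 1 ≤ m)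
    (hOG : OG G g) (B1 B2 : Fin m → V) (h1 : Function.Injective B1) (h2 : Function.Injective B2)
    (hB : ∀ i j, G.Adj (B1 i) (B2 j)) (hcol : ∀ φ : V → Fin c, ¬ Pr G φ)
    (hacol : ∀ i j, ∃ φ : V → Fin c, ∀ u v, G.Adj u v → φ u = φ v →
        (u = B1 i ∧ v = B2 j) ∨ (u = B2 j ∧ v = B1 i)) :
    ∃ n : ℕ, m ≤ n ∧ n ≤ Fintype.card V ∧ ∃ H : SimpleGraph (Fin n),
      H.chromaticNumber = ((c + 1 : ℕ) : ℕ∞) ∧ (∀ e ∈ H.edgeSet, (H.deleteEdges {e}).Colorable c) ∧
      (∀ v : Fin n, ∃ w : Fin n, H.Adj v w) ∧ OG H g ∧ m * m ≤ Nat.card H.edgeSet := by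
  classical
  have hG : ¬ G.Colorable c := by
    rintro ⟨C⟩
    exact hcol C (fun u v h => C.valid h)
  obtain ⟨J, ⟨hJG, hJ⟩, hmin⟩ := wellFounded_lt.has_min {H' : SimpleGraph V | H' ≤ G ∧ ¬ H'.Colorable c}
    ⟨G, le_rfl, hG⟩
  have hJB : ∀ i j, J.Adj (B1 i) (B2 j) := by
    intro i j
    by_contra hcon
    obtain ⟨φ, hφ⟩ := hacol i j
    apply hJ
    refine ⟨SimpleGraph.Coloring.mk φ ?_⟩
    intro u v huv heq
    rcases hφ u v (hJG huv) heq with ⟨rfl, rfl⟩ | ⟨rfl, rfl⟩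
    · exact hcon huv
    · exact hcon huv.symm
  have hne : ∀ i j, B1 i ≠ B2 j := fun i j => J.ne_of_adj (hJB i j)
  have hdel : ∀ u v, J.Adj u v → (J.deleteEdges {s(u, v)}).Colorable c := by
    intro u v huv
    by_contra hcon
    have hle : J.deleteEdges {s(u, v)} ≤ J := SimpleGraph.deleteEdges_le _
    refine hmin (J.deleteEdges {s(u, v)}) ⟨hle.trans hJG, hcon⟩ (lt_of_le_of_ne hle ?_)
    intro h
    have h3 : (J.deleteEdges {s(u, v)}).Adj u v := by rw [h]; exact huv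
    rw [SimpleGraph.deleteEdges_adj] at h3
    exact h3.2 rfl
  have hJc : J.Colorable (c + 1) := by
    have i0 : Fin m := ⟨0, by omega⟩
    obtain ⟨C⟩ := hdel _ _ (hJB i0 i0)
    refine ⟨SimpleGraph.Coloring.mk (fun v => if v = B1 i0 then Fin.last c else (C v).castSucc) ?_⟩
    intro u v huv
    show (if u = B1 i0 then Fin.last c else (C u).castSucc) ≠
      (if v = B1 i0 then Fin.last c else (C v).castSucc)
    by_cases hu : u = B1 i0
    · have hv : v ≠ B1 i0 := by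
        intro hv
        rw [hu, hv] at huv
        exact J.loopless.irrefl _ huv
      rw [if_pos hu, if_neg hv]
      exact (Fin.castSucc_lt_last _).ne'
    · by_cases hv : v = B1 i0
      · rw [if_neg hu, if_pos hv]
        exact (Fin.castSucc_lt_last _).ne
      · rw [if_neg hu, if_neg hv]
        intro h
        have h3 : C u = C v := Fin.castSucc_injective c h
        have h4 : (J.deleteEdges {s(B1 i0, B2 i0)}).Adj u v := by
          rw [SimpleGraph.deleteEdges_adj]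
          refine ⟨huv, ?_⟩
          intro h5
          have h5' : s(u, v) = s(B1 i0, B2 i0) := h5
          rw [Sym2.eq_iff] at h5'
          rcases h5' with ⟨h6, _⟩ | ⟨_, h6⟩
          · exact hu h6
          · exact hv h6
        exact C.valid h4 h3
  -- the non-isolated vertices
  obtain ⟨S, hS⟩ : ∃ S : Finset V, ∀ v, v ∈ S ↔ ∃ w, J.Adj v w :=
    ⟨Finset.univ.filter (fun v => ∃ w, J.Adj v w), fun v => by simp⟩
  let e : Fin S.card ≃ S := S.equivFin.symm
  set γ : Fin S.card → V := fun i => (e i).1 with hγ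
  have hγinj : Function.Injective γ := fun i j h => e.injective (Subtype.ext h)
  have hγS : ∀ i, ∃ w, J.Adj (γ i) w := by
    intro i
    exact (hS _).1 (e i).2
  have hγsurj : ∀ v, (∃ w, J.Adj v w) → ∃ i, γ i = v := by
    intro v hv
    have hvS : v ∈ S := (hS v).2 hv
    refine ⟨e.symm ⟨v, hvS⟩, ?_⟩
    show (e (e.symm ⟨v, hvS⟩)).1 = v
    rw [Equiv.apply_symm_apply]
  set H : SimpleGraph (Fin S.card) := J.comap γ with hH
  have hHadj : ∀ i j, H.Adj i j ↔ J.Adj (γ i) (γ j) := fun i j => Iff.rfl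
  have hBS : ∀ i, B1 i ∈ S := by
    intro i
    exact (hS _).2 ⟨B2 i, hJB i i⟩
  refine ⟨S.card, ?_, ?_, H, ?_, ?_, ?_, ?_, ?_⟩
  · have h3 : (Finset.univ.image B1).card = m := by
      rw [Finset.card_image_of_injective _ h1, Finset.card_univ, Fintype.card_fin]
    rw [← h3]
    apply Finset.card_le_card
    intro v hv
    rw [Finset.mem_image] at hv
    obtain ⟨i, _, rfl⟩ := hv
    exact hBS i
  · exact Finset.card_le_univ S
  · rw [Nat.cast_add, Nat.cast_one, SimpleGraph.chromaticNumber_eq_iff_colorable_not_colorable]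
    constructor
    · obtain ⟨C⟩ := hJc
      exact ⟨SimpleGraph.Coloring.mk (fun i => C (γ i)) (fun {i j} h => C.valid ((hHadj i j).1 h))⟩
    · rintro ⟨C⟩
      apply hJ
      refine ⟨SimpleGraph.Coloring.mk (fun v => if h : ∃ i, γ i = v then C h.choose else ⟨0, by omega⟩) ?_⟩
      intro u v huv
      have hu : ∃ i, γ i = u := hγsurj u ⟨v, huv⟩
      have hv : ∃ i, γ i = v := hγsurj v ⟨u, huv.symm⟩
      show (if h : ∃ i, γ i = u then C h.choose else ⟨0, by omega⟩) ≠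
        (if h : ∃ i, γ i = v then C h.choose else ⟨0, by omega⟩)
      rw [dif_pos hu, dif_pos hv]
      apply C.valid
      rw [hHadj, hu.choose_spec, hv.choose_spec]
      exact huv
  · intro e' he'
    induction e' using Sym2.ind with
    | _ i j =>
      rw [SimpleGraph.mem_edgeSet] at he'
      obtain ⟨C⟩ := hdel _ _ ((hHadj i j).1 he')
      refine ⟨SimpleGraph.Coloring.mk (fun i => C (γ i)) ?_⟩
      intro a b hab
      rw [SimpleGraph.deleteEdges_adj] at hab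
      apply C.valid
      rw [SimpleGraph.deleteEdges_adj]
      refine ⟨(hHadj a b).1 hab.1, ?_⟩
      intro h
      apply hab.2
      have h' : s(γ a, γ b) = s(γ i, γ j) := h
      rw [Sym2.eq_iff] at h'
      show s(a, b) = s(i, j)
      rw [Sym2.eq_iff]
      rcases h' with ⟨h3, h4⟩ | ⟨h3, h4⟩
      · exact Or.inl ⟨hγinj h3, hγinj h4⟩
      · exact Or.inr ⟨hγinj h3, hγinj h4⟩
  · intro i
    obtain ⟨w, hw⟩ := hγS i
    obtain ⟨j, hj⟩ := hγsurj w ⟨_, hw.symm⟩
    refine ⟨j, ?_⟩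
    rw [hHadj, hj]
    exact hw
  · exact OG.of_map γ (fun i j h => hJG ((hHadj i j).1 h)) hOG
  · have hex1 : ∀ i, ∃ a, γ a = B1 i := fun i => hγsurj _ ⟨_, hJB i i⟩
    have hex2 : ∀ i, ∃ a, γ a = B2 i := fun i => hγsurj _ ⟨_, (hJB i i).symm⟩
    choose a1 ha1 using hex1
    choose a2 ha2 using hex2
    have hmem : ∀ z : Fin m × Fin m, s(a1 z.1, a2 z.2) ∈ H.edgeSet := by
      intro z
      rw [SimpleGraph.mem_edgeSet, hHadj, ha1, ha2]
      exact hJB _ _
    have hinj : Function.Injective (fun z : Fin m × Fin m =>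
        (⟨s(a1 z.1, a2 z.2), hmem z⟩ : H.edgeSet)) := by
      rintro ⟨i, j⟩ ⟨i', j'⟩ h
      have h' : s(a1 i, a2 j) = s(a1 i', a2 j') := congrArg Subtype.val h
      rw [Sym2.eq_iff] at h'
      rcases h' with ⟨h3, h4⟩ | ⟨h3, h4⟩
      · have h5 : i = i' := h1 (by rw [← ha1, ← ha1, h3])
        have h6 : j = j' := h2 (by rw [← ha2, ← ha2, h4])
        rw [h5, h6]
      · exact absurd (by rw [← ha1, ← ha2, h3]) (hne i j')
    have h3 := Nat.card_le_card_of_injective _ hinj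
    rw [Nat.card_prod, Nat.card_fin] at h3
    exact h3

theorem main (ℓ : ℕ) : ∃ c : ℝ, 0 < c ∧ ∀ k : ℕ, 4 ≤ k → ∀ N : ℕ, ∃ n : ℕ, N ≤ n ∧
      ∃ G : SimpleGraph (Fin n),
        G.chromaticNumber = (k : ℕ∞) ∧
        (∀ e ∈ G.edgeSet, (G.deleteEdges {e}).Colorable (k - 1)) ∧
        (∀ v : Fin n, ∃ w : Fin n, G.Adj v w) ∧
        (∀ (v : Fin n) (p : G.Walk v v), p.IsCycle → Odd p.length → ℓ ≤ p.length) ∧
        c * (n : ℝ) ^ 2 ≤ (Nat.card G.edgeSet : ℝ) := by
  obtain ⟨A, hA⟩ := dense_all ℓ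
  refine ⟨1 / ((A : ℝ) + 1) ^ 2, by positivity, ?_⟩
  intro k hk N
  obtain ⟨Q, hQ, Qg, hOG, -, D, hD⟩ := hA (k - 1) (by omega)
  have hDr := hD (N + D)
  obtain ⟨m, hm⟩ : ∃ m, m = (2 * ℓ + 3) * (2 * (N + D) + 1) := ⟨_, rfl⟩
  rw [← hm] at hDr
  obtain ⟨V, hV, G, f, B1, B2, hf, hB1, hB2, hB, hcol, hacol, hcard⟩ := hDr
  have hmN : N + D + 1 ≤ m := by
    rw [hm]
    nlinarith
  obtain ⟨n, hn1, hn2, H, h1, h2, h3, h4, h5⟩ := critical (c := k - 1) (by omega) (by omega)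
    (OG.of_map f hf hOG) B1 B2 hB1 hB2 hB hcol hacol
  refine ⟨n, by omega, H, ?_, h2, h3, ?_, ?_⟩
  · rw [h1]
    congr 1
    omega
  · intro v p _ hp
    exact (h4 _ _ hp (RW.of_walk p)).le
  · have h6 : n ≤ (A + 1) * m := by
      calc n ≤ A * m + D := hn2.trans hcard
        _ ≤ A * m + m := by omega
        _ = (A + 1) * m := by ring
    have h7 : (n : ℝ) ≤ ((A : ℝ) + 1) * m := by exact_mod_cast h6
    have h8 : (m : ℝ) * m ≤ (Nat.card H.edgeSet : ℝ) := by exact_mod_cast h5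
    have hA0 : (0 : ℝ) < (A : ℝ) + 1 := by positivity
    rw [one_div, ← div_eq_inv_mul, div_le_iff₀ (by positivity)]
    have h9 : (n : ℝ) ^ 2 ≤ (((A : ℝ) + 1) * m) ^ 2 := by
      apply pow_le_pow_left₀ (by positivity) h7
    nlinarith [h9, h8, sq_nonneg ((A : ℝ) + 1), mul_le_mul_of_nonneg_right h8 (sq_nonneg ((A : ℝ) + 1))]

end Pool.Agent.K35c.DG
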