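import Pool.Agent.K35c.DG.Final

/-!
NOT a hand-in (withdrawn, see departures/helper35.md): the full positive answer to MP_7b15fe_co Q1
(dense k-critical graphs of every odd girth, with a density independent of k).  The published version of
Pegden, Critical graphs without triangles: an optimum density construction (Combinatorica 33 (2013))
probably contains it.
-/

set_option autoImplicit false

namespace Pool.Agent.K35c.DG.Frozen

theorem result :
    ∀ ℓ : ℕ, 3 ≤ ℓ → ∃ c : ℝ, 0 < c ∧ ∀ k : ℕ, 4 ≤ k → ∀ N : ℕ, ∃ n : ℕ, N ≤ n ∧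
      ∃ G : SimpleGraph (Fin n),
        G.chromaticNumber = (k : ℕ∞) ∧
        (∀ e ∈ G.edgeSet, (G.deleteEdges {e}).Colorable (k - 1)) ∧
        (∀ v : Fin n, ∃ w : Fin n, G.Adj v w) ∧
        (∀ (v : Fin n) (p : G.Walk v v), p.IsCycle → Odd p.length → ℓ ≤ p.length) ∧
        c * (n : ℝ) ^ 2 ≤ (Nat.card G.edgeSet : ℝ) := by
  exact fun ℓ _ => Pool.Agent.K35c.DG.main ℓ

end Pool.Agent.K35c.DG.Frozen
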