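import Pool.Agent.K35c.DG.Sub

/-! Adding one colour. -/

set_option autoImplicit false

namespace Pool.Agent.K35c.DG

open Sum

section

variable {X X' I I' W : Type*}

theorem sub_map {E : SimpleGraph X} {a b : I → X} {E' : SimpleGraph X'} {a' b' : I' → X'}
    {R : SimpleGraph W} {p q : W} (F : X → X') (ι : I → I')
    (hF : ∀ x y, E.Adj x y → E'.Adj (F x) (F y)) (ha : ∀ i, a' (ι i) = F (a i))
    (hb : ∀ i, b' (ι i) = F (b i)) (hab : ∀ i, a' i ≠ b' i) :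
    ∀ s t, (Sub E a b R p q).Adj s t →
      (Sub E' a' b' R p q).Adj (Sum.map F (Prod.map ι id) s) (Sum.map F (Prod.map ι id) t) := by
  have hpi : ∀ i w, Sum.map F (Prod.map ι id) (pi a b p q i w) = pi a' b' p q (ι i) w := by
    intro i w
    unfold pi
    split_ifs with h1 h2
    · rw [Sum.map_inl, ha]
    · rw [Sum.map_inl, hb]
    · rfl
  rintro s t ⟨_, h⟩
  rcases h with ⟨x, y, h1, rfl, rfl⟩ | ⟨i, u, v, h1, rfl, rfl⟩
  · exact sub_adj (hF _ _ h1)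
  · rw [hpi, hpi]
    exact sub_gad hab (ι i) h1

end

section

variable {V Q : Type*}

/-- every vertex `v` is joined to the hub of its class -/
def Hub (G : SimpleGraph V) (f : V → Q) : SimpleGraph (V ⊕ (Q ⊕ Unit)) where
  Adj s t := (∃ u v, G.Adj u v ∧ s = inl u ∧ t = inl v) ∨
    (∃ v, s = inl v ∧ t = inr (inl (f v))) ∨ (∃ v, t = inl v ∧ s = inr (inl (f v)))
  symm := ⟨fun s t h => by
    rcases h with ⟨u, v, h1, h2, h3⟩ | h | h
    · exact Or.inl ⟨v, u, h1.symm, h3, h2⟩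
    · exact Or.inr (Or.inr h)
    · exact Or.inr (Or.inl h)⟩
  loopless := ⟨fun s h => by
    rcases h with ⟨u, v, h1, h2, h3⟩ | ⟨v, h1, h2⟩ | ⟨v, h1, h2⟩
    · rw [h2] at h3
      exact G.ne_of_adj h1 (inl_injective h3)
    · rw [h1] at h2
      simp at h2
    · rw [h1] at h2
      simp at h2⟩

theorem hub_og {Qg : SimpleGraph Q} {g : ℕ} (h : OG Qg g) (he : ∃ u v, Qg.Adj u v) :
    OG (Hub Qg (id : Q → Q)) g := by
  classical
  obtain ⟨e0, e1, he⟩ := he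
  set F : Q ⊕ (Q ⊕ Unit) → Q := fun s => match s with
    | inl x => if ∃ y, Qg.Adj x y then x else e0
    | inr (inl x) => if h : ∃ y, Qg.Adj x y then h.choose else e1
    | inr (inr _) => e0 with hF
  have hpend : ∀ v, Qg.Adj (F (inl v)) (F (inr (inl v))) := by
    intro v
    show Qg.Adj (if ∃ y, Qg.Adj v y then v else e0)
      (if h : ∃ y, Qg.Adj v y then h.choose else e1)
    split_ifs with h1
    · exact h1.choose_spec
    · exact he
  refine OG.of_map F ?_ h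
  rintro s t (⟨u, v, h1, rfl, rfl⟩ | ⟨v, rfl, rfl⟩ | ⟨v, rfl, rfl⟩)
  · have e1 : F (inl u) = u := if_pos ⟨v, h1⟩
    have e2 : F (inl v) = v := if_pos ⟨u, h1.symm⟩
    rw [e1, e2]
    exact h1
  · exact hpend v
  · exact (hpend v).symm

end

/-- the inductive statement -/
def Dense (g A c m0 : ℕ) : Prop :=
  ∃ (Q : Type) (_ : Fintype Q) (Qg : SimpleGraph Q), OG Qg g ∧ (∃ u v, Qg.Adj u v) ∧
    ∃ D : ℕ, ∀ r : ℕ, ∃ (V : Type) (_ : Fintype V) (G : SimpleGraph V) (f : V → Q)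
      (B1 B2 : Fin (m0 * (2 * r + 1)) → V),
      (∀ u v, G.Adj u v → Qg.Adj (f u) (f v)) ∧ Function.Injective B1 ∧ Function.Injective B2 ∧
      (∀ i j, G.Adj (B1 i) (B2 j)) ∧ (∀ φ : V → Fin c, ¬ Pr G φ) ∧
      (∀ i j, ∃ φ : V → Fin c, ∀ u v, G.Adj u v → φ u = φ v →
        (u = B1 i ∧ v = B2 j) ∨ (u = B2 j ∧ v = B1 i)) ∧
      Fintype.card V ≤ A * (m0 * (2 * r + 1)) + D

theorem dense_step {g A c m0 : ℕ} (h : Dense g A c m0) : Dense g A (c + 1) m0 := by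
  classical
  obtain ⟨Q, hQ, Qg, hOG, hedge, D, hD⟩ := h
  obtain ⟨W, hW, R, p, q, hpq, hR1, hR2, hR3, hR4⟩ := gad (c + 1) g (by omega)
  set a' : Q → Q ⊕ (Q ⊕ Unit) := fun x => inr (inl x) with ha'
  set b' : Q → Q ⊕ (Q ⊕ Unit) := fun _ => inr (inr ()) with hb'
  have hab' : ∀ i, a' i ≠ b' i := by
    intro i
    simp [ha', hb']
  refine ⟨(Q ⊕ (Q ⊕ Unit)) ⊕ (Q × W), inferInstance, Sub (Hub Qg id) a' b' R p q,
    sub_og hab' hpq hR3 hR4 (hub_og hOG hedge), ?_, D + (Fintype.card Q + 1) +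
      Fintype.card Q * Fintype.card W, ?_⟩
  · obtain ⟨u, v, huv⟩ := hedge
    exact ⟨inl (inl u), inl (inl v), sub_adj (Or.inl ⟨u, v, huv, rfl, rfl⟩)⟩
  intro r
  obtain ⟨V, hV, G, f, B1, B2, hf, hB1, hB2, hB, hcol, hacol, hcard⟩ := hD r
  set a : Q → V ⊕ (Q ⊕ Unit) := fun x => inr (inl x) with ha
  set b : Q → V ⊕ (Q ⊕ Unit) := fun _ => inr (inr ()) with hb
  have hab : ∀ i, a i ≠ b i := by
    intro i
    simp [ha, hb]
  set F : V ⊕ (Q ⊕ Unit) → Q ⊕ (Q ⊕ Unit) := Sum.map f id with hF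
  refine ⟨(V ⊕ (Q ⊕ Unit)) ⊕ (Q × W), inferInstance, Sub (Hub G f) a b R p q,
    Sum.map F (Prod.map id id), fun i => inl (inl (B1 i)), fun i => inl (inl (B2 i)),
    ?_, ?_, ?_, ?_, ?_, ?_, ?_⟩
  · apply sub_map F id ?_ ?_ ?_ hab'
    · rintro s t (⟨u, v, h1, rfl, rfl⟩ | ⟨v, rfl, rfl⟩ | ⟨v, rfl, rfl⟩)
      · exact Or.inl ⟨f u, f v, hf _ _ h1, rfl, rfl⟩
      · exact Or.inr (Or.inl ⟨f v, rfl, rfl⟩)
      · exact Or.inr (Or.inr ⟨f v, rfl, rfl⟩)
    · intro i; rfl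
    · intro i; rfl
  · intro i j hij
    exact hB1 (inl_injective (inl_injective hij))
  · intro i j hij
    exact hB2 (inl_injective (inl_injective hij))
  · intro i j
    exact sub_adj (Or.inl ⟨_, _, hB i j, rfl, rfl⟩)
  · intro φ hφ
    obtain ⟨h1, h2⟩ := sub_col hab hpq hR1 hφ
    set γ := φ (inl (inr (inr ()))) with hγ
    have h3 : ∀ v : V, φ (inl (inl v)) ≠ γ := by
      intro v
      have h4 := h1 (inl v) (inr (inl (f v))) (Or.inr (Or.inl ⟨v, rfl, rfl⟩))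
      have h5 := h2 (f v)
      rw [hγ]
      intro h6
      apply h4
      rw [h6]
      exact h5.symm
    have h4 : ∀ v : V, ∃ z : Fin c, γ.succAbove z = φ (inl (inl v)) :=
      fun v => Fin.exists_succAbove_eq (h3 v)
    choose ψ hψ using h4
    apply hcol ψ
    intro u v huv heq
    apply h1 (inl u) (inl v) (Or.inl ⟨u, v, huv, rfl, rfl⟩)
    rw [← hψ u, ← hψ v, heq]
  · intro i j
    obtain ⟨ψ, hψ⟩ := hacol i j
    obtain ⟨φ, _, hφ⟩ := sub_ext (E := Hub G f) hab hpq hR1 hR2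
      (fun x => match x with
        | inl v => (ψ v).castSucc
        | inr _ => Fin.last c) (inl (B1 i)) (inl (B2 j))
      (by
        rintro s t (⟨u, v, h1, rfl, rfl⟩ | ⟨v, rfl, rfl⟩ | ⟨v, rfl, rfl⟩) h
        · have h' : ψ u = ψ v := Fin.castSucc_injective c h
          rcases hψ u v h1 h' with ⟨rfl, rfl⟩ | ⟨rfl, rfl⟩
          · exact Or.inl ⟨rfl, rfl⟩
          · exact Or.inr ⟨rfl, rfl⟩
        · have h' : (ψ v).castSucc = Fin.last c := h
          exact absurd h' (Fin.castSucc_lt_last _).ne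
        · have h' : Fin.last c = (ψ v).castSucc := h
          exact absurd h'.symm (Fin.castSucc_lt_last _).ne)
      (fun _ => rfl)
    exact ⟨φ, hφ⟩
  · rw [Fintype.card_sum, Fintype.card_sum, Fintype.card_sum, Fintype.card_prod, Fintype.card_unit]
    omega

end Pool.Agent.K35c.DG
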