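import Pool.Agent.K35c.DG.Walks

/-! Replacing equality constraints by gadgets. -/

set_option autoImplicit false

namespace Pool.Agent.K35c.DG

open Sum

section

variable {X I W : Type*}

open Classical in
/-- the copy number `i` of the gadget -/
noncomputable def pi (a b : I → X) (p q : W) (i : I) (w : W) : X ⊕ (I × W) :=
  if w = p then inl (a i) else if w = q then inl (b i) else inr (i, w)

/-- `E` together with a copy of the gadget `R` between `a i` and `b i` for all `i` -/
noncomputable def Sub (E : SimpleGraph X) (a b : I → X) (R : SimpleGraph W) (p q : W) :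
    SimpleGraph (X ⊕ (I × W)) where
  Adj s t := s ≠ t ∧ ((∃ x y, E.Adj x y ∧ s = inl x ∧ t = inl y) ∨
    (∃ i u v, R.Adj u v ∧ s = pi a b p q i u ∧ t = pi a b p q i v))
  symm := ⟨fun s t h => by
    obtain ⟨h0, h⟩ := h
    refine ⟨h0.symm, ?_⟩
    rcases h with ⟨x, y, h1, h2, h3⟩ | ⟨i, u, v, h1, h2, h3⟩
    · exact Or.inl ⟨y, x, h1.symm, h3, h2⟩
    · exact Or.inr ⟨i, v, u, h1.symm, h3, h2⟩⟩
  loopless := ⟨fun s h => h.1 rfl⟩

variable {E : SimpleGraph X} {a b : I → X} {R : SimpleGraph W} {p q : W}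

theorem pi_p (i : I) : pi a b p q i p = inl (a i) := by
  unfold pi
  rw [if_pos rfl]

theorem pi_q (hpq : p ≠ q) (i : I) : pi a b p q i q = inl (b i) := by
  unfold pi
  rw [if_neg hpq.symm, if_pos rfl]

theorem pi_inj (hab : ∀ i, a i ≠ b i) (i : I) : Function.Injective (pi a b p q i) := by
  intro u v h
  unfold pi at h
  split_ifs at h with h1 h2 h3 h4 h5 h6 h7 h8
  · rw [h1, h2]
  · exact absurd (inl_injective h) (hab i)
  · exact absurd (inl_injective h).symm (hab i)
  · rw [h4, h6]
  · exact (Prod.mk.inj (inr_injective h)).2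

theorem sub_adj {x y : X} (h : E.Adj x y) : (Sub E a b R p q).Adj (inl x) (inl y) :=
  ⟨fun h' => E.ne_of_adj h (inl_injective h'), Or.inl ⟨x, y, h, rfl, rfl⟩⟩

theorem sub_gad (hab : ∀ i, a i ≠ b i) (i : I) {u v : W} (h : R.Adj u v) :
    (Sub E a b R p q).Adj (pi a b p q i u) (pi a b p q i v) :=
  ⟨fun h' => R.ne_of_adj h (pi_inj hab i h'), Or.inr ⟨i, u, v, h, rfl, rfl⟩⟩

/-- walks of the gadget are walks of `Sub` -/
theorem rw_pi (hab : ∀ i, a i ≠ b i) (i : I) {L : ℕ} {u v : W} (h : RW R L u v) :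
    RW (Sub E a b R p q) L (pi a b p q i u) (pi a b p q i v) :=
  h.map (pi a b p q i) (fun _ _ h => sub_gad hab i h)

/-- colourings of `Sub` satisfy the constraints -/
theorem sub_col {c : ℕ} (hab : ∀ i, a i ≠ b i) (hpq : p ≠ q)
    (hR : ∀ φ : W → Fin c, Pr R φ → φ p = φ q) {φ : X ⊕ (I × W) → Fin c}
    (hφ : Pr (Sub E a b R p q) φ) :
    (∀ x y, E.Adj x y → φ (inl x) ≠ φ (inl y)) ∧ ∀ i, φ (inl (a i)) = φ (inl (b i)) := by
  refine ⟨fun x y h => hφ _ _ (sub_adj h), fun i => ?_⟩
  have := hR (fun w => φ (pi a b p q i w)) (fun u v h => hφ _ _ (sub_gad hab i h))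
  simpa [pi_p, pi_q hpq] using this

/-- a colouring of `E` satisfying the constraints (proper but for one pair) extends -/
theorem sub_ext {c : ℕ} (hab : ∀ i, a i ≠ b i) (hpq : p ≠ q)
    (hR : ∀ φ : W → Fin c, Pr R φ → φ p = φ q) (hR2 : ∃ φ : W → Fin c, Pr R φ)
    (ψ : X → Fin c) (s t : X)
    (hψ : ∀ x y, E.Adj x y → ψ x = ψ y → (x = s ∧ y = t) ∨ (x = t ∧ y = s))
    (hc : ∀ i, ψ (a i) = ψ (b i)) :
    ∃ φ : X ⊕ (I × W) → Fin c, (∀ x, φ (inl x) = ψ x) ∧
      ∀ u v, (Sub E a b R p q).Adj u v → φ u = φ v →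
        (u = inl s ∧ v = inl t) ∨ (u = inl t ∧ v = inl s) := by
  obtain ⟨κ, hκ⟩ := hR2
  have hκpq := hR κ hκ
  set φ : X ⊕ (I × W) → Fin c := fun z => match z with
    | inl x => ψ x
    | inr (i, w) => Equiv.swap (κ p) (ψ (a i)) (κ w) with hφ
  have hpi : ∀ i w, φ (pi a b p q i w) = Equiv.swap (κ p) (ψ (a i)) (κ w) := by
    intro i w
    unfold pi
    split_ifs with h1 h2
    · show ψ (a i) = _
      rw [h1, Equiv.swap_apply_left]
    · show ψ (b i) = _
      rw [h2, ← hκpq, Equiv.swap_apply_left, hc]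
    · rfl
  refine ⟨φ, fun _ => rfl, ?_⟩
  rintro u v ⟨_, h⟩ huv
  rcases h with ⟨x, y, h1, rfl, rfl⟩ | ⟨i, w, w', h1, rfl, rfl⟩
  · rcases hψ x y h1 huv with ⟨rfl, rfl⟩ | ⟨rfl, rfl⟩
    · exact Or.inl ⟨rfl, rfl⟩
    · exact Or.inr ⟨rfl, rfl⟩
  · exfalso
    rw [hpi, hpi] at huv
    exact hκ _ _ h1 ((Equiv.swap _ _).injective huv)

/-- a walk that starts in a copy of the gadget stays there until it leaves at one of the two ends -/
theorem sub_exit (i : I) (y : X) : ∀ (L : ℕ) (v : W),
    RW (Sub E a b R p q) L (pi a b p q i v) (inl y) →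
    ∃ L₁ ≤ L, ∃ e, (e = p ∨ e = q) ∧ RW R L₁ v e ∧
      RW (Sub E a b R p q) (L - L₁) (pi a b p q i e) (inl y) := by
  intro L
  induction L with
  | zero =>
    intro v h
    have h' : pi a b p q i v = inl y := h
    by_cases h1 : v = p
    · exact ⟨0, le_rfl, v, Or.inl h1, rfl, h⟩
    · by_cases h2 : v = q
      · exact ⟨0, le_rfl, v, Or.inr h2, rfl, h⟩
      · unfold pi at h'
        rw [if_neg h1, if_neg h2] at h'
        exact absurd h' (by simp)
  | succ L ih =>
    intro v h
    by_cases h1 : v = p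
    · exact ⟨0, by omega, v, Or.inl h1, rfl, h⟩
    by_cases h2 : v = q
    · exact ⟨0, by omega, v, Or.inr h2, rfl, h⟩
    obtain ⟨z, ⟨_, hz⟩, hw⟩ := h
    have hv : pi a b p q i v = inr (i, v) := by
      unfold pi
      rw [if_neg h1, if_neg h2]
    rw [hv] at hz
    rcases hz with ⟨x, y', _, h3, _⟩ | ⟨j, u, w, h3, h4, h5⟩
    · exact absurd h3 (by simp)
    · have h6 : j = i ∧ u = v := by
        unfold pi at h4
        split_ifs at h4 with h6 h7
        · have := Prod.mk.inj (inr_injective h4)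
          exact ⟨this.1.symm, this.2.symm⟩
      obtain ⟨rfl, rfl⟩ := h6
      rw [h5] at hw
      obtain ⟨L₁, hL, e, he, hR, hS⟩ := ih w hw
      exact ⟨L₁ + 1, by omega, e, he, ⟨w, h3, hR⟩, by rw [Nat.add_sub_add_right]; exact hS⟩

/-- short walks between base vertices can be replaced by walks of the same parity in `E` -/
theorem sub_walk {g : ℕ} (hpq : p ≠ q) (hd : ∀ n, RW R n p q → g < n) (hR : OG R g) (y : X) :
    ∀ (L : ℕ) (x : X), L ≤ g → RW (Sub E a b R p q) L (inl x) (inl y) →
      ∃ L' ≤ L, (Even L' ↔ Even L) ∧ RW E L' x y := by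
  intro L
  induction L using Nat.strong_induction_on with
  | _ L ih =>
    intro x hL h
    rcases L with _ | L
    · have h' : inl x = inl y := h
      exact ⟨0, le_rfl, Iff.rfl, inl_injective h'⟩
    obtain ⟨z, ⟨_, hz⟩, hw⟩ := h
    rcases hz with ⟨x', y', h1, h2, h3⟩ | ⟨i, u, v, h1, h2, h3⟩
    · rw [h3] at hw
      rw [← inl_injective h2] at h1
      obtain ⟨L', hL', hpar, hE⟩ := ih L (by omega) y' (by omega) hw
      exact ⟨L' + 1, by omega, by rw [Nat.even_add_one, Nat.even_add_one, hpar], ⟨y', h1, hE⟩⟩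
    · rw [h3] at hw
      obtain ⟨L₁, hL₁, e, he, hRw, hS⟩ := sub_exit i y L v hw
      have hu : u = p ∨ u = q := by
        by_contra hcon
        push Not at hcon
        unfold pi at h2
        rw [if_neg hcon.1, if_neg hcon.2] at h2
        exact absurd h2 (by simp)
      have hwR : RW R (L₁ + 1) u e := ⟨v, h1, hRw⟩
      have hue : u = e := by
        rcases hu with rfl | rfl <;> rcases he with rfl | rfl
        · rfl
        · exact absurd (hd _ hwR) (by omega)
        · exact absurd (hd _ hwR.symm) (by omega)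
        · rfl
      rw [← hue] at hS hwR
      rw [← h2] at hS
      have heven : Even (L₁ + 1) := by
        rw [← Nat.not_odd_iff_even]
        intro hodd
        exact absurd (hR _ _ hodd hwR) (by omega)
      obtain ⟨L', hL', hpar, hE⟩ := ih (L - L₁) (by omega) x (by omega) hS
      refine ⟨L', by omega, ?_, hE⟩
      rw [hpar]
      rw [Nat.even_iff] at heven ⊢
      rw [Nat.even_iff]
      omega

/-- closed walks from an interior vertex of a gadget either stay there or pass through an end -/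
theorem sub_inner (i : I) (t : W) (ht : t ≠ p ∧ t ≠ q) : ∀ (L : ℕ) (v : W),
    RW (Sub E a b R p q) L (pi a b p q i v) (inr (i, t)) →
    RW R L v t ∨ ∃ L₁ ≤ L, ∃ e, (e = p ∨ e = q) ∧ RW R L₁ v e ∧
      RW (Sub E a b R p q) (L - L₁) (pi a b p q i e) (inr (i, t)) := by
  intro L
  induction L with
  | zero =>
    intro v h
    left
    have h' : pi a b p q i v = inr (i, t) := h
    unfold pi at h'
    split_ifs at h' with h1 h2
    · exact (Prod.mk.inj (inr_injective h')).2
  | succ L ih =>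
    intro v h
    by_cases h1 : v = p
    · exact Or.inr ⟨0, by omega, v, Or.inl h1, rfl, h⟩
    by_cases h2 : v = q
    · exact Or.inr ⟨0, by omega, v, Or.inr h2, rfl, h⟩
    obtain ⟨z, ⟨_, hz⟩, hw⟩ := h
    have hv : pi a b p q i v = inr (i, v) := by
      unfold pi
      rw [if_neg h1, if_neg h2]
    rw [hv] at hz
    rcases hz with ⟨x, y', _, h3, _⟩ | ⟨j, u, w, h3, h4, h5⟩
    · exact absurd h3 (by simp)
    · have h6 : j = i ∧ u = v := by
        unfold pi at h4
        split_ifs at h4 with h6 h7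
        · have := Prod.mk.inj (inr_injective h4)
          exact ⟨this.1.symm, this.2.symm⟩
      obtain ⟨rfl, rfl⟩ := h6
      rw [h5] at hw
      rcases ih w hw with h7 | ⟨L₁, hL, e, he, hR, hS⟩
      · exact Or.inl ⟨w, h3, h7⟩
      · exact Or.inr ⟨L₁ + 1, by omega, e, he, ⟨w, h3, hR⟩, by
          rw [Nat.add_sub_add_right]; exact hS⟩

/-- the odd girth of `Sub` -/
theorem sub_og {g : ℕ} (hab : ∀ i, a i ≠ b i) (hpq : p ≠ q) (hd : ∀ n, RW R n p q → g < n) (hR : OG R g) (hE : OG E g) :
    OG (Sub E a b R p q) g := by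
  intro n s hn hw
  by_contra hgn
  push Not at hgn
  have hbase : ∀ x : X, RW (Sub E a b R p q) n (inl x) (inl x) → False := by
    intro x hx
    obtain ⟨L', hL', hpar, hE'⟩ := sub_walk hpq hd hR x n x hgn hx
    have : Odd L' := by
      rw [← Nat.not_even_iff_odd, hpar, Nat.not_even_iff_odd]
      exact hn
    have := hE _ _ this hE'
    omega
  rcases s with x | ⟨i, t⟩
  · exact hbase x hw
  · by_cases ht : t ≠ p ∧ t ≠ q
    · have hpt : pi a b p q i t = inr (i, t) := by
        unfold pi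
        rw [if_neg ht.1, if_neg ht.2]
      have hw' : RW (Sub E a b R p q) n (pi a b p q i t) (inr (i, t)) := by
        rw [hpt]
        exact hw
      rcases sub_inner i t ht n t hw' with h | ⟨L₁, hL, e, he, h1, h2⟩
      · have := hR _ _ hn h
        omega
      · -- rotate
        have h3 : RW (Sub E a b R p q) L₁ (pi a b p q i t) (pi a b p q i e) := by
          exact rw_pi hab i h1
        have h4 := h2.trans (hpt ▸ h3)
        rw [Nat.sub_add_cancel hL] at h4
        rcases he with rfl | rfl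
        · rw [pi_p] at h4
          exact hbase _ h4
        · rw [pi_q hpq] at h4
          exact hbase _ h4
    · -- an isolated vertex
      rcases n with _ | n
      · exact absurd hn (by decide)
      · obtain ⟨z, ⟨_, hz⟩, _⟩ := hw
        rcases hz with ⟨x, y', _, h3, _⟩ | ⟨j, u, w, h3, h4, h5⟩
        · exact absurd h3 (by simp)
        · unfold pi at h4
          split_ifs at h4 with h6 h7
          · have := (Prod.mk.inj (inr_injective h4)).2
            rw [this] at ht
            exact ht ⟨h6, h7⟩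

end

end Pool.Agent.K35c.DG
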