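import Mathlib
import Pool.Agent.W179.Erdos

/-! Walks of given length, odd girth, and the equality gadget. -/

set_option autoImplicit false

namespace Pool.Agent.K35c.DG

/-- there is a walk of length `n` from `s` to `t` -/
def RW {V : Type*} (G : SimpleGraph V) : ℕ → V → V → Prop
  | 0, s, t => s = t
  | n + 1, s, t => ∃ u, G.Adj s u ∧ RW G n u t

/-- no closed walk of odd length at most `g` -/
def OG {V : Type*} (G : SimpleGraph V) (g : ℕ) : Prop := ∀ n s, Odd n → RW G n s s → g < n

/-- `φ` is a proper colouring -/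
def Pr {V α : Type*} (G : SimpleGraph V) (φ : V → α) : Prop := ∀ u v, G.Adj u v → φ u ≠ φ v

section

variable {V V' : Type*} {G : SimpleGraph V} {G' : SimpleGraph V'}

theorem RW.trans {a b : ℕ} {s t u : V} (h1 : RW G a s t) (h2 : RW G b t u) : RW G (a + b) s u := by
  induction a generalizing s with
  | zero =>
    have h1' : s = t := h1
    rw [h1', Nat.zero_add]
    exact h2
  | succ a ih =>
    obtain ⟨x, hx, h⟩ := h1
    rw [Nat.succ_add]
    exact ⟨x, hx, ih h⟩

theorem RW.one {s t : V} (h : G.Adj s t) : RW G 1 s t := ⟨t, h, rfl⟩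

theorem RW.symm {a : ℕ} {s t : V} (h : RW G a s t) : RW G a t s := by
  induction a generalizing s with
  | zero => exact Eq.symm h
  | succ a ih =>
    obtain ⟨x, hx, h⟩ := h
    exact (ih h).trans (RW.one hx.symm)

theorem RW.map (f : V → V') (hf : ∀ u v, G.Adj u v → G'.Adj (f u) (f v)) {a : ℕ} {s t : V}
    (h : RW G a s t) : RW G' a (f s) (f t) := by
  induction a generalizing s with
  | zero => exact congrArg f h
  | succ a ih =>
    obtain ⟨x, hx, h⟩ := h
    exact ⟨f x, hf _ _ hx, ih h⟩

theorem OG.of_map (f : V → V') (hf : ∀ u v, G.Adj u v → G'.Adj (f u) (f v)) {g : ℕ}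
    (h : OG G' g) : OG G g := fun n s hn hw => h n (f s) hn (hw.map f hf)

theorem RW.exists_fun {n : ℕ} {s t : V} (h : RW G n s t) :
    ∃ f : ℕ → V, f 0 = s ∧ f n = t ∧ ∀ i < n, G.Adj (f i) (f (i + 1)) := by
  induction n generalizing s with
  | zero => exact ⟨fun _ => s, rfl, h, fun i hi => absurd hi (Nat.not_lt_zero _)⟩
  | succ n ih =>
    obtain ⟨x, hx, h⟩ := h
    obtain ⟨f, h0, h1, h2⟩ := ih h
    refine ⟨fun i => if i = 0 then s else f (i - 1), by simp, by simpa using h1, ?_⟩
    intro i hi
    rcases Nat.eq_zero_or_pos i with h | h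
    · subst h
      simp only [if_true, Nat.zero_add, if_neg (one_ne_zero), Nat.sub_self, h0]
      exact hx
    · beta_reduce
      rw [if_neg (by omega), if_neg (by omega)]
      have := h2 (i - 1) (by omega)
      rw [show i - 1 + 1 = i by omega] at this
      exact this

theorem RW.of_fun {f : ℕ → V} (a b : ℕ) (hab : a ≤ b) (h : ∀ i, a ≤ i → i < b → G.Adj (f i) (f (i + 1))) :
    RW G (b - a) (f a) (f b) := by
  obtain ⟨c, rfl⟩ := Nat.exists_eq_add_of_le hab
  rw [Nat.add_sub_cancel_left]
  induction c with
  | zero => rfl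
  | succ c ih =>
    exact (ih (by omega) (fun i h1 h2 => h i h1 (by omega))).trans
      (RW.one (h (a + c) (by omega) (by omega)))

theorem RW.of_walk {s t : V} (p : G.Walk s t) : RW G p.length s t := by
  induction p with
  | nil => rfl
  | cons h p ih => exact ⟨_, h, ih⟩

end

/-- graphs whose cycles are long have no short odd closed walks -/
theorem og_of_girth {V : Type*} {G : SimpleGraph V} {g : ℕ}
    (h : ∀ l f, W179.Erdos.FCyc G l f → g < l) : OG G g := by
  intro n
  induction n using Nat.strong_induction_on with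
  | _ n ih =>
    intro s hn hw
    obtain ⟨f, h0, h1, h2⟩ := hw.exists_fun
    by_cases hinj : ∀ i < n, ∀ j < n, f i = f j → i = j
    · apply h n f
      have hn1 : n ≠ 1 := by
        rintro rfl
        have := h2 0 (by omega)
        rw [h0, Nat.zero_add, h1] at this
        exact G.loopless.irrefl _ this
      have hn0 : 0 < n := hn.pos
      have hn2 : n ≠ 2 := by
        rintro rfl
        exact absurd hn (by decide)
      refine ⟨by omega, hinj, fun i hi => h2 i (by omega), ?_⟩
      have := h2 (n - 1) (by omega)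
      rw [show n - 1 + 1 = n by omega, h1] at this
      rwa [h0]
    · push Not at hinj
      obtain ⟨i, hi, j, hj, hij, hne⟩ := hinj
      -- wlog i < j
      have key : ∀ i j, i < n → j < n → f i = f j → i < j → g < n := by
        intro i j hi hj hij hlt
        have w1 : RW G (j - i) (f i) (f j) := RW.of_fun i j hlt.le (fun k _ h => h2 k (by omega))
        have w2 : RW G (i - 0) (f 0) (f i) := RW.of_fun 0 i (by omega) (fun k _ h => h2 k (by omega))
        have w3 : RW G (n - j) (f j) (f n) := RW.of_fun j n (by omega) (fun k _ h => h2 k (by omega))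
        rw [← hij] at w1 w3
        rw [h0] at w2
        rw [h1] at w3
        have w4 := w2.trans w3
        rcases Nat.even_or_odd (j - i) with he | ho
        · have ho : Odd (i - 0 + (n - j)) := by
            rw [Nat.odd_iff] at hn ⊢
            rw [Nat.even_iff] at he
            omega
          have := ih _ (by omega) s ho w4
          omega
        · have := ih _ (by omega) _ ho w1
          omega
      rcases lt_or_gt_of_ne hne with h' | h'
      · exact key i j hi hj hij h'
      · exact key j i hj hi hij.symm h'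

/-- in a graph with long cycles, the ends of an edge are not joined by a short walk avoiding it -/
theorem no_short {V : Type*} {G R : SimpleGraph V} {g : ℕ} (hRG : ∀ a b, R.Adj a b → G.Adj a b)
    (h : ∀ l f, W179.Erdos.FCyc G l f → g + 1 < l) {u v : V} (huv : G.Adj u v) (hR : ¬ R.Adj u v) :
    ∀ n, RW R n u v → g < n := by
  intro n
  induction n using Nat.strong_induction_on with
  | _ n ih =>
    intro hw
    obtain ⟨f, h0, h1, h2⟩ := hw.exists_fun
    by_cases hinj : ∀ i < n + 1, ∀ j < n + 1, f i = f j → i = j
    · have hn0 : n ≠ 0 := by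
        rintro rfl
        rw [h0] at h1
        exact G.ne_of_adj huv h1
      have hn1 : n ≠ 1 := by
        rintro rfl
        have := h2 0 (by omega)
        rw [h0, Nat.zero_add, h1] at this
        exact hR this
      have := h (n + 1) f ⟨by omega, hinj, fun i hi => hRG _ _ (h2 i (by omega)), by
        rw [Nat.add_sub_cancel, h1, h0]
        exact huv.symm⟩
      omega
    · push Not at hinj
      obtain ⟨i, hi, j, hj, hij, hne⟩ := hinj
      have key : ∀ i j, i < n + 1 → j < n + 1 → f i = f j → i < j → g < n := by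
        intro i j hi hj hij hlt
        have w2 : RW R (i - 0) (f 0) (f i) := RW.of_fun 0 i (by omega) (fun k _ h => h2 k (by omega))
        have w3 : RW R (n - j) (f j) (f n) := RW.of_fun j n (by omega) (fun k _ h => h2 k (by omega))
        rw [← hij] at w3
        rw [h0] at w2
        rw [h1] at w3
        have := ih _ (by omega) (w2.trans w3)
        omega
      rcases lt_or_gt_of_ne hne with h' | h'
      · exact key i j hi hj hij h'
      · exact key j i hj hi hij.symm h'

/-- The equality gadget: a graph with two vertices which have the same colour in every colouring with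
`c` colours and which are far apart. -/
theorem gad (c g : ℕ) (hc : 1 ≤ c) : ∃ (W : Type) (_ : Fintype W) (R : SimpleGraph W) (p q : W),
    p ≠ q ∧ (∀ φ : W → Fin c, Pr R φ → φ p = φ q) ∧ (∃ φ : W → Fin c, Pr R φ) ∧
    (∀ n, RW R n p q → g < n) ∧ OG R g := by
  classical
  obtain ⟨V, hV, H, hH, hg⟩ := W179.Erdos.erdos c (g + 1)
  obtain ⟨J, ⟨hJH, hJ⟩, hmin⟩ := wellFounded_lt.has_min {H' : SimpleGraph V | H' ≤ H ∧ ¬ H'.Colorable c}
    ⟨H, le_rfl, hH⟩
  have hedge : ∃ u v, J.Adj u v := by
    by_contra hcon
    push Not at hcon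
    apply hJ
    exact ⟨SimpleGraph.Coloring.mk (fun _ => ⟨0, by omega⟩) (fun {u v} h => absurd h (hcon u v))⟩
  obtain ⟨u, v, huv⟩ := hedge
  set R := J.deleteEdges {s(u, v)} with hR
  have hRJ : ∀ a b, R.Adj a b → J.Adj a b := by
    intro a b h
    rw [hR, SimpleGraph.deleteEdges_adj] at h
    exact h.1
  have hRuv : ¬ R.Adj u v := by
    rw [hR, SimpleGraph.deleteEdges_adj]
    simp
  have hlt : R < J := by
    refine lt_of_le_of_ne (fun a b h => hRJ a b h) ?_
    intro h
    apply hRuv
    rw [h]
    exact huv
  have hcol : R.Colorable c := by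
    by_contra hcon
    exact hmin R ⟨hlt.le.trans hJH, hcon⟩ hlt
  refine ⟨V, hV, R, u, v, J.ne_of_adj huv, ?_, ?_, ?_, ?_⟩
  · intro φ hφ
    by_contra hne
    apply hJ
    refine ⟨SimpleGraph.Coloring.mk φ ?_⟩
    intro a b hab
    by_cases h : s(a, b) = s(u, v)
    · rw [Sym2.eq_iff] at h
      rcases h with ⟨rfl, rfl⟩ | ⟨rfl, rfl⟩
      · exact hne
      · exact Ne.symm hne
    · apply hφ
      rw [hR, SimpleGraph.deleteEdges_adj]
      exact ⟨hab, by simpa using h⟩
  · obtain ⟨C⟩ := hcol
    exact ⟨C, fun a b h => C.valid h⟩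
  · exact no_short (G := H) (fun a b h => hJH (hRJ a b h)) hg (hJH huv) hRuv
  · apply og_of_girth
    intro l f hf
    have := hg l f ⟨hf.three, hf.inj, fun i hi => hJH (hRJ _ _ (hf.adj i hi)), hJH (hRJ _ _ hf.close)⟩
    omega

end Pool.Agent.K35c.DG
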